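import Pool.Agent.H421.CyI

/-!
# Cycle lengths of rational maps with infinitely many bad primes

Let `K` be a number field and `S` a finite set of primes of `K`.

(1) Let `m ≥ 4`. There is a constant `B` such that the following holds for all rational maps
`f = P / Q` over `K`, of ANY degree `d`, which at every prime `v` outside `S`

* have potentially good reduction, or
* are (up to a conjugation over `K`) expanding on a disk, by factors which are `m`-th powers in the
  value group of `v`, while the complement of the disk is mapped into itself and contracted.

If `N` divides the length of a cycle of `f` in `ℙ¹(K)` and `N` is prime to `6`, then `N ≤ B`. If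
`m ≥ 6` is even, then all cycles of `f` in `ℙ¹(K)` have length at most `B`, and if `d ≥ 2`, then
`f` has at most `d ^ B + 2` periodic points in `ℙ¹(K)`.

(2) Let `P`, `Q` be coprime, `Q` separable, `deg P ≤ deg Q = d ≥ 2`. The number of the periodic points
in `ℙ¹(K)` of the maps `P / Q + t` is bounded for all `t ∈ K` whose pole orders outside `S` are
divisible by `3` (or by any fixed `k ≥ 3`).

Morton and Silverman bounded the lengths of the cycles independently of the degree if there is good
reduction outside `S`; here infinitely many primes may be bad.

Proof. At a good prime the chordal distance of two points of a cycle of length `n` only depends on the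
difference of their indices, and not on factors of this difference which are prime to `n`. At an
expanding prime all distances are `m`-th powers. So certain cross ratios `λ` of four points of the
cycle are such that `λ`, `λ - 1` have values which are `m`-th powers at all primes outside `S`; or `λ`
does, while `λ + 1` has values which are squares. There are finitely many such `λ`, by Mordell's
conjecture for hyperelliptic curves over number fields.

The maps in (2) have expanding disks with `m = 2 k` at the poles of `t` outside a finite set of primes, and
good reduction at the other primes.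
-/

set_option autoImplicit false

open Polynomial NumberField IsDedekindDomain Pool.Agent.H421.Cy

namespace Pool.Agent.Results.MP_c076ed_nt.CycleLengths

/-- **Cycle lengths of rational maps with infinitely many bad primes.** -/
theorem result (K : Type) [Field K] [NumberField K] (S : Set (HeightOneSpectrum (𝓞 K)))
    (hS : S.Finite) :
    (∀ m : ℕ, 4 ≤ m → ∃ B : ℕ, ∀ (d : ℕ) (P Q : K[X]), 1 ≤ d → IsRat d P Q →
      (∀ v ∉ S, PotGood v d P Q ∨ ExpandsAt v m d P Q) →
      (∀ x ∈ Function.periodicPts (ratMap d P Q), ∀ N,
        N ∣ Function.minimalPeriod (ratMap d P Q) x → Nat.Coprime N 6 → N ≤ B) ∧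
      (6 ≤ m → Even m →
        (∀ x ∈ Function.periodicPts (ratMap d P Q), Function.minimalPeriod (ratMap d P Q) x ≤ B) ∧
        (2 ≤ d → (Function.periodicPts (ratMap d P Q)).encard ≤ (d ^ B + 2 : ℕ)))) ∧
    (∀ (P Q : K[X]) (k : ℕ), IsCoprime P Q → Q.Separable → 2 ≤ Q.natDegree →
      P.natDegree ≤ Q.natDegree → 3 ≤ k → ∃ B : ℕ, ∀ t : K,
      (∀ v ∉ S, v.valuation K t ≤ 1 ∨ ∃ g, v.valuation K t = g ^ k) →
      (Function.periodicPts (ratMap Q.natDegree (P + C t * Q) Q)).encard ≤ (B : ℕ)) :=
  ⟨fun m hm => main K hS m hm, fun P Q _ hPQ hQ hd hP hk => family_bound K hS hk P Q hPQ hQ hd hP⟩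

end Pool.Agent.Results.MP_c076ed_nt.CycleLengths
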