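import Mathlib
import Pool.Agent.H422.MR.Main

/-!
# One-parameter families of rational maps `s ^ a * (P / Q) (s ^ b * z ^ e)` on the projective line

Let `K` be a number field (for instance `ℚ`), `P` and `Q` coprime separable polynomials over `K` of the
same degree `m` with `P(0) Q(0) ≠ 0`, so that `G = P / Q` is a rational function of degree `m` whose zeros
and poles are simple and different from `0` and `∞`. Let `e` be a positive integer, `a, b` integers and
`M = |e a + b| / gcd(e, b)`. If `M ≥ 4`, `e ≥ 4`, `m ≥ 1` (or `M ≥ 3`, `e ≥ 5`, `m ≥ 2`, or `M ≥ 2`,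
`e ≥ 6`, `m ≥ 2`), then for all but finitely many `s ≠ 0` in `K` the map `φ_s(z) = s ^ a G(s ^ b z ^ e)` of
degree `e m` has no preperiodic point in `P¹(K)` at all, and the number of the preperiodic points of `φ_s`
in `P¹(K)` is bounded uniformly in `s ≠ 0`.

For `m = 1` these are families of bicritical maps (`0` and `∞` are the only critical points), for instance
`φ_s(z) = s (α z ^ e + β s) / (γ z ^ e + δ s)`, `e ≥ 5`.

Sketch of the proof. After the conjugation `z = s ^ a z'`, and replacing `s` by its inverse if necessary,
`φ(z) = G(s ^ N z ^ e)`, `N = |e a + b|`. Outside a fixed finite set of places the following holds for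
periodic points `x ≠ y` in `K` and `ζ ^ e = 1`, `ζ ≠ 1`. If `|s| = 1` the map has good reduction; the
chordal distance of `φ(x)` and `φ(y)` is at most the product of the distances of `x` and `ζ y`, and since it
does not decrease along cycles, `x` and `ζ y` have distance one for `ζ ≠ 1`. If `|s| < 1`, there is an
absorbing annulus `|z| = 1` on which the map contracts, and all other periodic points lie near the poles
of the map, where it expands with the factor `|x|`, a power with exponent `M`. If `|s| > 1` the same
holds with `0` in the place of `∞`. Hence the ratios `(x / y - ζ) / (x / y - ζ')` have orders divisible by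
`M` outside a fixed finite set of places, and Mordell's conjecture for hyperelliptic curves over number
fields (proved in `Pool/Agent/H422/HE`) leaves finitely many quotients `x / y` for all `s` together. So
`φ(y) = τ y` with `τ` in a finite set (some periodic `y` has `y, φ(y) ≠ 0, ∞`, or `s ^ N` is in a finite
set), and then `w = s ^ N y ^ e` satisfies `w (τ Q(w)) ^ e = s ^ N P(w) ^ e`; the orders of `w - r`, for
`r = 0` and `r` a zero or pole of `G`, are divisible by `M` relative to each other, so there are finitely
many `w`, and finitely many `s`. For the exceptional `s` one uses Northcott's theorem.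

`pt a b` is the point `[a : b]` of `P¹(K) = OnePoint K`, and `rat F G` is the self-map of `P¹(K)` given by
`F / G` (at `∞` by the quotient of the coefficients of degree `max (deg F) (deg G)`).
-/

set_option autoImplicit false

namespace Pool.Agent.Results.MP_c076ed_nt.RationalFamilies

open Pool.Agent.H422.UC Pool.Agent.H422.MF Pool.Agent.H422.MR Polynomial

theorem result (K : Type) [Field K] [NumberField K] (P Q : Polynomial K) (hP : P.Separable)
    (hQ : Q.Separable) (hPQ : IsCoprime P Q) (hdeg : P.natDegree = Q.natDegree)
    (hP0 : P.eval 0 ≠ 0) (hQ0 : Q.eval 0 ≠ 0) (e : ℕ) (a b : ℤ) (M : ℕ)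
    (hM : M * Int.gcd e b = (e * a + b).natAbs)
    (h : (4 ≤ M ∧ 4 ≤ e ∧ 1 ≤ P.natDegree) ∨ (3 ≤ M ∧ 5 ≤ e ∧ 2 ≤ P.natDegree) ∨
      (2 ≤ M ∧ 6 ≤ e ∧ 2 ≤ P.natDegree)) :
    ∃ (E : Finset K) (B : ℕ), ∀ (s : K) (T : Finset (OnePoint K)), s ≠ 0 →
      (∀ x ∈ T, ∃ m n : ℕ, m < n ∧
        (rat (C (s ^ a) * P.comp (C (s ^ b) * X ^ e)) (Q.comp (C (s ^ b) * X ^ e)))^[m] x =
          (rat (C (s ^ a) * P.comp (C (s ^ b) * X ^ e)) (Q.comp (C (s ^ b) * X ^ e)))^[n] x) →
      T.card ≤ B ∧ (s ∉ E → T = ∅) :=
  main_ab2 K hP hQ (by rwa [coeff_zero_eq_eval_zero]) (by rwa [coeff_zero_eq_eval_zero]) hPQ hdeg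
    hM (by unfold Hyp; omega) (by unfold Hyp; omega)

end Pool.Agent.Results.MP_c076ed_nt.RationalFamilies
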