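import Mathlib
import Pool.Agent.H422.DC.Real

/-!
# Periodic points of polynomials with good or simple reduction on a disk at all places outside `S`

Let `K` be a number field (for instance `ℚ`), `S` a finite set of finite places of `K`, `D ≥ 2` and `M ≥ 4`.
We consider the polynomials `f` over `K` of degree `D` such that, for every finite place `v` outside `S`,
one of the following holds.

(a) There is a disk `U = {z : |z - c| ≤ ρ}`, `c ∈ K`, `ρ > 0` real (both may depend on `v`), such that the
inverse image of `U` under `f` is contained in `U` and, for `E = |A| ρ ^ (D - 1)` (`A` the leading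
coefficient), either `E = 1` (potentially good reduction) or `E > 1` and `|f' x| = E` for all `x ∈ U ∩ K`
with `f x ∈ U` (the reduction of `f` on `U` has only simple zeros); moreover, if `ρ` is the absolute value of
an element of `K`, then `E` is the absolute value of the `M`-th power of an element of `K`. (If `f` is monic,
the last condition is satisfied for `M = D - 1`. For `f = z ^ 2 + b`, condition (a) holds with `c = 0` for
all `v` not dividing `2` such that `v(b) ≥ 0`, or `v(b)` is odd, or `v(b)` is divisible by `2 M`.)

(b) `M = D - 1`, and `f = z ^ D + b_{D-1} z ^ {D-1} + ... + b₀` is monic with `|bᵢ| ≤ 1` for `i ≥ 2`, and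
not `|b₀| ^ (D - 1) = |b₁| ^ D > 1`. (This is a special case of (a) if `v` does not divide `D (D - 1)`. For
instance, all `bᵢ` with `i ≥ 1` are integral at `v`, and `b₀` is arbitrary.)

The number of places of bad reduction may be arbitrarily large. Then there is a constant `B`, the same for
all these `f`, such that
* all odd divisors of the periods of the periodic points of `f` in `K` are at most `B`, and `f` has at most
  `B` periodic points of odd period in `K`;
* if `M` is even and `M ≥ 6`, then `f` has at most `B` periodic points in `K`;
* if `f = h (G ^ e)` with polynomials `h`, `G` over `K` and `e ≥ 3`, then `f` has at most `B` periodic points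
  in `K`.

Sketch of the proof. Outside `S`, if `E = 1`, then `|f x - f y| = |x - y|` for periodic points `x`, `y`; and
if `E > 1`, then `|x - y|` is `ρ E ^ (-j)` for periodic points `x ≠ y`, where `j` depends on `x` and `y`.
Hence for a periodic point of period `n` the quotients of the differences `f^[i + k] x - f^[i] x` and
`f^[i' + k'] x - f^[i'] x` have orders divisible by `M` outside `S` if `gcd (k, n) = gcd (k', n)`, and two
such differences whose difference is a third one give points `t` such that `t` and `t - 1` have this
property. There are finitely many of them, for all `f` together, by Mordell's conjecture for hyperelliptic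
curves over number fields (proved in `Pool/Agent/H422/HE`). This bounds the odd prime powers in `n`. For the
powers of `2` we use a cross ratio of four points of the cycle and curves `y ^ 2 = a x ^ M + b`. In the last
case, for periodic points `x ≠ y` in `K` and `ζ ^ e = 1`, `ζ ≠ 1`, the quotients of the numbers
`G x - ζ G y` have orders divisible by `M`, and `ω (G y - ω G z)`, `G x - ω G y` and
`ω² (G z - ω⁻² G x)` are related.
-/

set_option autoImplicit false

namespace Pool.Agent.Results.MP_c076ed_nt.SimpleReduction

open Pool.Agent.H422.DC Polynomial IsDedekindDomain NumberField NumberField.HeightOneSpectrum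

theorem result (K : Type) [Field K] [NumberField K] (S : Set (HeightOneSpectrum (𝓞 K)))
    (hS : S.Finite) (D M : ℕ) (hD : 2 ≤ D) (hM : 4 ≤ M) :
    ∃ B : ℕ, ∀ f : K[X], f.natDegree = D →
      (∀ v ∉ S,
        (∃ (c : K) (ρ : ℝ), SimpleDisk (adicAbv K v) M f c ρ) ∨
        (f.Monic ∧ M = D - 1 ∧ (∀ i, 2 ≤ i → v.valuation K (f.coeff i) ≤ 1) ∧
          (v.valuation K (f.coeff 0) ^ (D - 1) = v.valuation K (f.coeff 1) ^ D →
            v.valuation K (f.coeff 0) ≤ 1))) →
        (∀ x ∈ Function.periodicPts (fun z => f.eval z), ∀ m, Odd m →
          m ∣ Function.minimalPeriod (fun z => f.eval z) x → m ≤ B) ∧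
        (∀ T : Finset K, (∀ x ∈ T, Odd (Function.minimalPeriod (fun z => f.eval z) x)) →
          T.card ≤ B) ∧
        (((Even M ∧ 6 ≤ M) ∨ (∃ (e : ℕ) (h G : K[X]), 3 ≤ e ∧ f = (h.comp (X ^ e)).comp G)) →
          ∀ T : Finset K, (∀ x ∈ T, x ∈ Function.periodicPts (fun z => f.eval z)) →
            T.card ≤ B) :=
  main_real K hS hD hM

end Pool.Agent.Results.MP_c076ed_nt.SimpleReduction
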