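import Mathlib
import Pool.Agent.H422.UC.Global
import Pool.Graph.R_pool_sql_team_seeded_47a924f7.Results.MP_c076ed_nt.AllParametersUnicritical

/-!
# Uniform boundedness for the unicritical polynomials `x ^ d + c`, over `ℚ` for `d ≥ 3` and over every
# number field for `d ≥ 5`

For every `d ≥ 3` there is `B` such that for all rational numbers `c` the polynomial `x ^ d + c` has
at most `B` rational preperiodic points. For every number field `K` and every `d ≥ 5` there is `B` such
that for all `c` in `K` the polynomial `x ^ d + c` has at most `B` preperiodic points in `K`.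

* `d = 3`: the map is increasing, so the preperiodic points are fixed.
* `d = 4`: this is in the library (`AllParametersUnicritical`, packing in Mordell-Weil lattices).
* `d ≥ 5` (new; here over every number field, `Pool.Agent.H422.UC.uniform_bound`). Let `K` contain
  the `d`-th roots of unity, and let `x ≠ y` be periodic points in `K`. At a place with `|c| ≤ 1`
  all `x - ζ y`, `ζ ^ d = 1`, `ζ ≠ 1`, are units (dynamical units); at a place with `|c| > 1` and
  prime to `d` they have absolute values `|x| ^ (1 - (d - 1) n)`. So all ratios
  `(x / y - ζ) / (x / y - ζ')` have orders divisible by `d - 1 ≥ 4` outside a fixed finite set of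
  places. By finiteness of the Selmer groups and Mordell's conjecture for hyperelliptic curves there
  are finitely many such `x / y`, whatever `c` is. Mordell's conjecture for all hyperelliptic curves
  over number fields is proved in `Pool/Agent/H422/HE` by the method of Bogomolov and Tschinkel: if
  `x - q₁, ..., x - q₄` are squares, the point over `x` of
  `y ² = (x - q₁) (x - q₂) (x - q₃)` is divided by three, and after translation its abscissa minus the
  abscissas of the points of order three are squares, which gives a point of a genus two cover of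
  `w ² = u ³ + 1`; the same step again gives a point of `w ² = x ⁶ + 1`, for which Mordell's conjecture
  is in the library (`H437R2`). The points which are not periodic are treated in the same way.
-/

set_option autoImplicit false

namespace Pool.Agent.Results.MP_c076ed_nt.UnicriticalAllDegrees

theorem cube (c : ℚ) (T : Finset ℚ) (hT : ∀ x ∈ T, ∃ m n : ℕ, m < n ∧
    (fun x : ℚ => x ^ 3 + c)^[m] x = (fun x : ℚ => x ^ 3 + c)^[n] x) : T.card ≤ 3 := by
  classical
  have hmono : StrictMono (fun x : ℚ => x ^ 3 + c) := by
    intro a b hab
    have : a ^ 3 < b ^ 3 := (Odd.strictMono_pow (by decide : Odd 3)) hab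
    simp only
    linarith
  have hfix : ∀ x ∈ T, x ^ 3 + c = x := by
    intro x hx
    obtain ⟨m, n, hmn, he⟩ := hT x hx
    set f : ℚ → ℚ := fun x : ℚ => x ^ 3 + c with hf
    by_contra hne
    have hne' : f x ≠ x := hne
    rcases lt_or_gt_of_ne hne' with h | h
    · have : StrictAnti (fun k : ℕ => f^[k] x) := by
        apply strictAnti_nat_of_succ_lt
        intro k
        rw [Function.iterate_succ_apply]
        exact hmono.iterate k h
      exact absurd he (this hmn).ne'
    · have : StrictMono (fun k : ℕ => f^[k] x) := by
        apply strictMono_nat_of_lt_succ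
        intro k
        rw [Function.iterate_succ_apply]
        exact hmono.iterate k h
      exact absurd he (this hmn).ne
  open Polynomial in
  have hP : (X ^ 3 - X + C c : ℚ[X]).natDegree = 3 := by compute_degree!
  have hP0 : (Polynomial.X ^ 3 - Polynomial.X + Polynomial.C c : Polynomial ℚ) ≠ 0 := by
    intro h
    rw [h, Polynomial.natDegree_zero] at hP
    norm_num at hP
  have hsub : T ⊆ (Polynomial.X ^ 3 - Polynomial.X + Polynomial.C c : Polynomial ℚ).roots.toFinset := by
    intro x hx
    rw [Multiset.mem_toFinset, Polynomial.mem_roots hP0, Polynomial.IsRoot.def]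
    simp only [Polynomial.eval_add, Polynomial.eval_sub, Polynomial.eval_pow, Polynomial.eval_X,
      Polynomial.eval_C]
    linarith [hfix x hx]
  calc T.card ≤ _ := Finset.card_le_card hsub
    _ ≤ _ := Multiset.toFinset_card_le _
    _ ≤ _ := Polynomial.card_roots' _
    _ = 3 := hP

/-- **Uniform boundedness for unicritical polynomials**, over `ℚ` in all degrees `d ≥ 3` and over every number
field in all degrees `d ≥ 5`. -/
theorem result : (∀ d : ℕ, 3 ≤ d → ∃ B : ℕ, ∀ (c : ℚ) (T : Finset ℚ),
    (∀ x ∈ T, ∃ m n : ℕ, m < n ∧
      (fun x : ℚ => x ^ d + c)^[m] x = (fun x : ℚ => x ^ d + c)^[n] x) → T.card ≤ B) ∧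
    (∀ (K : Type) [Field K] [NumberField K] (d : ℕ), 5 ≤ d → ∃ B : ℕ, ∀ (c : K) (T : Finset K),
      (∀ x ∈ T, ∃ m n : ℕ, m < n ∧
        (fun x : K => x ^ d + c)^[m] x = (fun x : K => x ^ d + c)^[n] x) → T.card ≤ B) := by
  refine ⟨?_, fun K _ _ d hd => Pool.Agent.H422.UC.uniform_bound K hd⟩
  intro d hd
  rcases Nat.lt_or_ge d 5 with h5 | h5
  · rcases Nat.lt_or_ge d 4 with h4 | h4
    · have h3 : d = 3 := by omega
      subst h3
      exact ⟨3, cube⟩
    · have h4 : d = 4 := by omega
      subst h4
      exact Pool.Agent.Results.MP_c076ed_nt.AllParametersUnicritical.result.1 4 rfl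
  · exact Pool.Agent.H422.UC.uniform_bound ℚ h5

end Pool.Agent.Results.MP_c076ed_nt.UnicriticalAllDegrees
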